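import Pool.Agent.helper53.ORE.Spec

/-!
# Row ore:HYP, hyperbolic pairs in characteristic two
-/

set_option autoImplicit false

namespace Pool.Agent.ORE

open Module Pool.Agent.GS

/-- a vector with prescribed products -/
theorem HYP_ex {F V : Type} [Field F] [AddCommGroup V] [Module F V] [FiniteDimensional F V]
    (Q : QuadraticForm F V) (hN : Nd Q) (W : Submodule F V) (v : V) (hv : v ∉ W) :
    ∃ f, pb Q v f = 1 ∧ ∀ w ∈ W, pb Q w f = 0 := by
  obtain ⟨φ, hφv, hφW⟩ := Submodule.exists_le_ker_of_notMem hv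
  have hinj : Function.Injective (pb Q) := by
    rw [injective_iff_map_eq_zero]
    intro x hx
    exact hN x fun y => by rw [hx]; rfl
  have hsurj : Function.Surjective (pb Q) := by
    have h := LinearMap.injective_iff_surjective_of_finrank_eq_finrank
      (f := (pb Q : V →ₗ[F] (V →ₗ[F] F))) (Subspace.dual_finrank_eq (K := F) (V := V)).symm
    exact h.1 hinj
  obtain ⟨f, hf⟩ := hsurj ((φ v)⁻¹ • φ)
  refine ⟨f, ?_, fun w hw => ?_⟩
  · rw [pb_symm, hf, LinearMap.smul_apply, smul_eq_mul, inv_mul_cancel₀ hφv]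
  · rw [pb_symm, hf, LinearMap.smul_apply]
    have : φ w = 0 := hφW hw
    rw [this, smul_zero]

/-- make the second vector singular -/
theorem HYP_fix {F V : Type} [Field F] [AddCommGroup V] [Module F V]
    (Q : QuadraticForm F V) (h2 : (2 : F) = 0) (v f : V) (hv : Q v = 0) (hf : pb Q v f = 1) :
    Q (f + Q f • v) = 0 ∧ pb Q v (f + Q f • v) = 1 ∧
      ∀ w, pb Q w v = 0 → pb Q w (f + Q f • v) = pb Q w f := by
  refine ⟨?_, ?_, fun w hw => ?_⟩
  · rw [Q_add, Q_smul, hv, mul_zero, add_zero, map_smul, smul_eq_mul, pb_symm, hf, mul_one,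
      add2 h2]
  · rw [map_add, map_smul, pb_self2 h2, smul_zero, add_zero, hf]
  · rw [map_add, map_smul, hw, smul_zero, add_zero]

theorem HYP (cw : CWQ_stmt) (ns : NSV_stmt) : HYP_stmt := by
  intro F V _ _ _ _ _ Q h2 hN hdim
  refine ⟨?_, ?_⟩
  · intro u x hu hQu hux hx
    have hux' : u ∉ Submodule.span F {x} := by
      rw [Submodule.mem_span_singleton]
      rintro ⟨c, hc⟩
      have hc0 : c ≠ 0 := by
        intro h0
        apply hu
        rw [← hc, h0, zero_smul]
      apply hx c⁻¹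
      rw [← hc, smul_smul, inv_mul_cancel₀ hc0, one_smul]
    obtain ⟨f, hf1, hf2⟩ := HYP_ex Q hN _ u hux'
    obtain ⟨h3, h4, h5⟩ := HYP_fix Q h2 u f hQu hf1
    refine ⟨_, h3, h4, ?_⟩
    rw [h5 x (by rw [pb_symm]; exact hux)]
    exact hf2 x (Submodule.mem_span_singleton_self x)
  · obtain ⟨u, -, hu0, hQu⟩ := (cw Q Q).1 ⊤ (by rw [finrank_top]; omega)
    obtain ⟨f, hf1, -⟩ := HYP_ex Q hN ⊥ u (by rw [Submodule.mem_bot]; exact hu0)
    obtain ⟨h3, h4, h5⟩ := HYP_fix Q h2 u f hQu hf1
    set u' := f + Q f • u with hu'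
    let X : Submodule F V := LinearMap.ker ((pb Q u).prod (pb Q u'))
    have hX : 3 ≤ finrank F X := by
      have h6 := LinearMap.finrank_range_add_finrank_ker ((pb Q u).prod (pb Q u'))
      have h7 : finrank F (LinearMap.range ((pb Q u).prod (pb Q u'))) ≤ 2 := by
        refine le_trans (Submodule.finrank_le _) ?_
        rw [Module.finrank_prod, Module.finrank_self]
      have h8 : finrank F X = finrank F (LinearMap.ker ((pb Q u).prod (pb Q u'))) := rfl
      omega
    obtain ⟨v, hvX, hv0, hQv⟩ := (cw Q Q).1 X hX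
    have hvX' : pb Q u v = 0 ∧ pb Q u' v = 0 := by
      have h6 : ((pb Q u).prod (pb Q u')) v = 0 := hvX
      exact ⟨congrArg Prod.fst h6, congrArg Prod.snd h6⟩
    have hvs : v ∉ Submodule.span F {u, u'} := by
      rw [Submodule.mem_span_pair]
      rintro ⟨a, b, hab⟩
      have h6 : pb Q u v = b := by
        rw [← hab, map_add, map_smul, map_smul, pb_self2 h2, h4, smul_zero, zero_add,
          smul_eq_mul, mul_one]
      have h7 : pb Q u' v = a := by
        rw [← hab, map_add, map_smul, map_smul, pb_self2 h2, pb_symm Q u' u, h4, smul_zero,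
          add_zero, smul_eq_mul, mul_one]
      apply hv0
      rw [← hab, ← h6, ← h7, hvX'.1, hvX'.2, zero_smul, zero_smul, zero_add]
    obtain ⟨g, hg1, hg2⟩ := HYP_ex Q hN _ v hvs
    obtain ⟨h6, h7, h8⟩ := HYP_fix Q h2 v g hQv hg1
    refine ⟨u, u', v, g + Q g • v, hQu, h3, hQv, h6, h4, h7, hvX'.1, ?_, hvX'.2, ?_⟩
    · rw [h8 u hvX'.1]
      exact hg2 u (Submodule.subset_span (Set.mem_insert _ _))
    · rw [h8 u' hvX'.2]
      exact hg2 u' (Submodule.subset_span (Set.mem_insert_of_mem _ rfl))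

end Pool.Agent.ORE
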